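import Pool.Agent.Run7.h356.LP.Stm

/-!
Piece PSH (helper921): push-forward under `h` in polar coordinates.
-/

set_option autoImplicit false

noncomputable section

open MeasureTheory Filter Topology Set
open scoped BigOperators Matrix ENNReal Pointwise

namespace Run7.h921.LP

open H356LP H712MA

namespace PSHaux

/-- real determinant of the multiplication by a complex number -/
theorem det_mul (c : ℂ) :
    ((ContinuousLinearMap.toSpanSingleton ℂ c).restrictScalars ℝ).det = ‖c‖ ^ 2 := by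
  have h : (((ContinuousLinearMap.toSpanSingleton ℂ c).restrictScalars ℝ : ℂ →L[ℝ] ℂ) :
      ℂ →ₗ[ℝ] ℂ) = LinearMap.mulLeft ℝ c := by
    ext z; all_goals simp [mul_comm]
  rw [ContinuousLinearMap.det, h]
  have h2 : LinearMap.det (LinearMap.mulLeft ℝ c) = Algebra.norm ℝ c := by
    rw [Algebra.norm_apply]; rfl
  rw [h2, Algebra.norm_complex_apply, Complex.normSq_eq_norm_sq]

theorem norm_ee (r φ : ℝ) (hr : 0 ≤ r) : ‖(r : ℂ) * ee φ‖ = r := by
  unfold ee
  rw [norm_mul, Complex.norm_exp_ofReal_mul_I, mul_one, Complex.norm_real,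
    Real.norm_of_nonneg hr]

/-- change of variables `t = h(z)` -/
theorem cov (D : Disc) (L : Lens) (he : ∀ z : ℂ, ‖z‖ < 1 → L.e (D.h z) = z) (g : ℂ → ℝ≥0∞) :
    ∫⁻ t in D.U, g t = ∫⁻ z in Metric.ball (0 : ℂ) 1, ENNReal.ofReal (‖D.hd z‖ ^ 2) * g (D.h z) := by
  have hinj' : InjOn D.h (Metric.ball (0 : ℂ) 1) := by
    intro z hz w hw e
    rw [Metric.mem_ball, dist_zero_right] at hz hw
    rw [← he z hz, ← he w hw, e]
  have h := lintegral_image_eq_lintegral_abs_det_fderiv_mul (volume : Measure ℂ)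
    (s := Metric.ball (0 : ℂ) 1) (f := D.h)
    (f' := fun z => (ContinuousLinearMap.toSpanSingleton ℂ (D.hd z)).restrictScalars ℝ)
    measurableSet_ball (fun z hz => by
      rw [Metric.mem_ball, dist_zero_right] at hz
      exact ((D.der z hz).hasFDerivAt.restrictScalars ℝ).hasFDerivWithinAt) hinj' g
  simp only [det_mul] at h
  unfold Disc.U
  rw [h]
  refine lintegral_congr fun z => ?_
  rw [abs_of_nonneg (by positivity)]

/-- polar coordinates on the disc -/
theorem polar (f : ℂ → ℝ≥0∞) (hf : Measurable f) :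
    ∫⁻ z in Metric.ball (0 : ℂ) 1, f z =
      ∫⁻ r in Ioo (0 : ℝ) 1, ENNReal.ofReal r * ∫⁻ φ in Ioo (-Real.pi) Real.pi,
        f ((r : ℂ) * ee φ) := by
  classical
  rw [← lintegral_indicator measurableSet_ball, ← Complex.lintegral_comp_polarCoord_symm]
  have hsymm : Measurable fun p : ℝ × ℝ => Complex.polarCoord.symm p := by
    have : (fun p : ℝ × ℝ => Complex.polarCoord.symm p) =
        fun p : ℝ × ℝ => (p.1 : ℂ) * (Real.cos p.2 + Real.sin p.2 * Complex.I) := by
      funext p; exact Complex.polarCoord_symm_apply p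
    rw [this]
    fun_prop
  have hfm : Measurable ((Metric.ball (0 : ℂ) 1).indicator fun z => f z) :=
    hf.indicator measurableSet_ball
  rw [show (polarCoord.target : Set (ℝ × ℝ)) = Ioi (0 : ℝ) ×ˢ Ioo (-Real.pi) Real.pi from rfl,
    Measure.volume_eq_prod, ← Measure.prod_restrict]
  rw [lintegral_prod _ (by
    exact ((ENNReal.measurable_ofReal.comp measurable_fst).smul (hfm.comp hsymm)).aemeasurable)]
  have e1 : ∀ r φ : ℝ, Complex.polarCoord.symm (r, φ) = (r : ℂ) * ee φ := by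
    intro r φ
    unfold ee
    rw [Complex.polarCoord_symm_apply, Complex.exp_mul_I, Complex.ofReal_cos, Complex.ofReal_sin]
  rw [← lintegral_indicator measurableSet_Ioi, ← lintegral_indicator measurableSet_Ioo]
  refine lintegral_congr fun r => ?_
  by_cases h0 : 0 < r
  · rw [indicator_of_mem (show r ∈ Ioi (0 : ℝ) from h0)]
    by_cases h1 : r < 1
    · rw [indicator_of_mem (show r ∈ Ioo (0 : ℝ) 1 from ⟨h0, h1⟩)]
      rw [← lintegral_const_mul' _ _ ENNReal.ofReal_ne_top]
      refine lintegral_congr fun φ => ?_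
      dsimp only
      rw [e1, indicator_of_mem (by
        rw [Metric.mem_ball, dist_zero_right, norm_ee r φ h0.le]; exact h1), smul_eq_mul]
    · rw [indicator_of_notMem (show r ∉ Ioo (0 : ℝ) 1 from fun h => h1 h.2)]
      have : ∀ φ : ℝ, ENNReal.ofReal (r, φ).1 • (Metric.ball (0 : ℂ) 1).indicator (fun z => f z)
          (Complex.polarCoord.symm (r, φ)) = 0 := by
        intro φ
        rw [e1, indicator_of_notMem (by
          rw [Metric.mem_ball, dist_zero_right, norm_ee r φ h0.le]; exact h1), smul_zero]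
      simp only [this, lintegral_zero]
  · rw [indicator_of_notMem (show r ∉ Ioi (0 : ℝ) from h0),
      indicator_of_notMem (show r ∉ Ioo (0 : ℝ) 1 from fun h => h0 h.1)]

/-- the coefficient in the disc -/
theorem coef (D : Disc) (L : Lens) (hW : L.W = D.U) (he : ∀ z : ℂ, ‖z‖ < 1 → L.e (D.h z) = z)
    (hde : ∀ z : ℂ, ‖z‖ < 1 → deriv L.e (D.h z) = 1 / D.hd z) (m : ℕ) (z : ℂ)
    (hz : ‖z‖ < 1) : ‖D.hd z‖ ^ 2 * af L m (D.h z) = (m : ℝ) ^ 2 * ‖z‖ ^ (2 * (m - 1)) := by
  have hmem : D.h z ∈ D.U := ⟨z, by rw [Metric.mem_ball, dist_zero_right]; exact hz, rfl⟩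
  have hne : ‖D.hd z‖ ≠ 0 := by
    intro h
    have h3 := D.re z hz.le
    rw [norm_eq_zero.1 h] at h3
    have := D.c0_pos
    simp only [Complex.zero_re] at h3
    linarith
  unfold af gd
  rw [if_pos (by rw [hW]; exact hmem), hde z hz, he z hz, norm_mul, norm_mul, norm_pow,
    Complex.norm_natCast, norm_div, norm_one]
  field_simp
  rw [← pow_mul, mul_comm (m - 1) 2]

theorem off (D : Disc) (L : Lens) (hW : L.W = D.U) (m : ℕ) (t : ℂ) (ht : t ∉ D.U) :
    af L m t = 0 := by
  unfold af gd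
  rw [if_neg (by rw [hW]; exact ht)]
  simp

/-- the substitution `v = r^(2m)` -/
theorem subst (m : ℕ) (hm : 1 ≤ m) (K : ℝ → ℝ≥0∞) :
    ∫⁻ v in Ioo (0 : ℝ) 1, K (v ^ (1 / (2 * (m : ℝ)))) =
      ∫⁻ r in Ioo (0 : ℝ) 1, ENNReal.ofReal (2 * (m : ℝ) * r ^ (2 * m - 1)) * K r := by
  have hm0 : (0 : ℝ) < m := by exact_mod_cast hm
  have h2m : 2 * m ≠ 0 := by omega
  have himg : (fun r : ℝ => r ^ (2 * m)) '' Ioo (0 : ℝ) 1 = Ioo (0 : ℝ) 1 := by
    ext v
    constructor
    · rintro ⟨r, hr, rfl⟩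
      exact ⟨pow_pos hr.1 _, pow_lt_one₀ hr.1.le hr.2 h2m⟩
    · intro hv
      refine ⟨v ^ (1 / (2 * (m : ℝ))), ⟨Real.rpow_pos_of_pos hv.1 _,
        Real.rpow_lt_one hv.1.le hv.2 (by positivity)⟩, ?_⟩
      simp only
      rw [← Real.rpow_natCast, ← Real.rpow_mul hv.1.le]
      have : 1 / (2 * (m : ℝ)) * ((2 * m : ℕ) : ℝ) = 1 := by
        push_cast
        field_simp
      rw [this, Real.rpow_one]
  have hinj : InjOn (fun r : ℝ => r ^ (2 * m)) (Ioo (0 : ℝ) 1) := by
    intro r hr s hs h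
    exact (pow_left_inj₀ hr.1.le hs.1.le h2m).1 h
  have h := lintegral_image_eq_lintegral_abs_deriv_mul (s := Ioo (0 : ℝ) 1)
    (f := fun r : ℝ => r ^ (2 * m)) (f' := fun r : ℝ => ((2 * m : ℕ) : ℝ) * r ^ (2 * m - 1))
    measurableSet_Ioo (fun r _ => (hasDerivAt_pow (2 * m) r).hasDerivWithinAt) hinj
    (fun v => K (v ^ (1 / (2 * (m : ℝ)))))
  rw [himg] at h
  rw [h]
  refine setLIntegral_congr_fun measurableSet_Ioo fun r hr => ?_
  have hr0 := hr.1
  rw [abs_of_nonneg (by positivity)]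
  congr 2
  · push_cast
    ring
  · rw [← Real.rpow_natCast, ← Real.rpow_mul hr0.le]
    have : ((2 * m : ℕ) : ℝ) * (1 / (2 * (m : ℝ))) = 1 := by
      push_cast
      field_simp
    rw [this, Real.rpow_one]

end PSHaux

open PSHaux

/-- PSH: push-forward under `h` in polar coordinates -/
theorem PSH : S_PSH := by
  intro D L hW he hde
  refine ⟨fun m hm G hG => ?_, fun m hm v φ hv0 hv1 => ?_⟩
  · have hm0 : (0 : ℝ) < m := by exact_mod_cast hm
    have hUm : MeasurableSet D.U := by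
      rw [← hW]; exact L.isOpen.measurableSet
    -- measurable version of `h`
    set h' : ℂ → ℂ := (Metric.ball (0 : ℂ) 1).indicator D.h with hh'
    have hm' : Measurable h' := by
      classical
      rw [hh', ← piecewise_eq_indicator]
      exact ContinuousOn.measurable_piecewise (D.cont.mono Metric.ball_subset_closedBall)
        continuousOn_const measurableSet_ball
    have e1 : ∫⁻ t, G t * ENNReal.ofReal (af L m t) =
        ∫⁻ t in D.U, G t * ENNReal.ofReal (af L m t) := by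
      rw [← lintegral_indicator hUm]
      refine lintegral_congr fun t => ?_
      by_cases ht : t ∈ D.U
      · rw [indicator_of_mem ht]
      · rw [indicator_of_notMem ht, off D L hW m t ht, ENNReal.ofReal_zero, mul_zero]
    have e2 : ∫⁻ z in Metric.ball (0 : ℂ) 1, ENNReal.ofReal (‖D.hd z‖ ^ 2) *
          (G (D.h z) * ENNReal.ofReal (af L m (D.h z))) =
        ∫⁻ z in Metric.ball (0 : ℂ) 1,
          G (h' z) * ENNReal.ofReal ((m : ℝ) ^ 2 * ‖z‖ ^ (2 * (m - 1))) := by
      refine setLIntegral_congr_fun measurableSet_ball fun z hz => ?_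
      have hz' := hz
      rw [Metric.mem_ball, dist_zero_right] at hz'
      rw [hh', indicator_of_mem hz, ← coef D L hW he hde m z hz',
        ENNReal.ofReal_mul (by positivity)]
      ring
    rw [e1, cov D L he, e2, polar _ (by fun_prop)]
    have e3 := subst m hm (fun r => ∫⁻ φ in Ioo (-Real.pi) Real.pi, G (D.h ((r : ℂ) * ee φ)))
    rw [e3, ← lintegral_const_mul' _ _ ENNReal.ofReal_ne_top]
    refine setLIntegral_congr_fun measurableSet_Ioo fun r hr => ?_
    have hr0 := hr.1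
    have e4 : ∀ φ : ℝ, G (h' ((r : ℂ) * ee φ)) *
        ENNReal.ofReal ((m : ℝ) ^ 2 * ‖(r : ℂ) * ee φ‖ ^ (2 * (m - 1))) =
        ENNReal.ofReal ((m : ℝ) ^ 2 * r ^ (2 * (m - 1))) * G (D.h ((r : ℂ) * ee φ)) := by
      intro φ
      rw [norm_ee r φ hr0.le, hh', indicator_of_mem (by
        rw [Metric.mem_ball, dist_zero_right, norm_ee r φ hr0.le]; exact hr.2), mul_comm]
    simp only [e4]
    rw [lintegral_const_mul' _ _ ENNReal.ofReal_ne_top, ← mul_assoc, ← mul_assoc,
      ← ENNReal.ofReal_mul hr0.le, ← ENNReal.ofReal_mul (by positivity)]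
    congr 2
    have e5 : 2 * m - 1 = 2 * (m - 1) + 1 := by omega
    rw [e5, pow_succ]
    ring
  · have hm0 : (0 : ℝ) < m := by exact_mod_cast hm
    have hv' : 0 ≤ v ^ (1 / (2 * (m : ℝ))) := Real.rpow_nonneg hv0.le _
    have hn : ‖((v ^ (1 / (2 * (m : ℝ))) : ℝ) : ℂ) * ee φ‖ = v ^ (1 / (2 * (m : ℝ))) :=
      norm_ee _ φ hv'
    have hlt : ‖((v ^ (1 / (2 * (m : ℝ))) : ℝ) : ℂ) * ee φ‖ < 1 := by
      rw [hn]
      exact Real.rpow_lt_one hv0.le hv1 (by positivity)
    unfold gf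
    rw [he _ hlt, norm_pow, hn, ← pow_mul, ← Real.rpow_natCast, ← Real.rpow_mul hv0.le]
    have : 1 / (2 * (m : ℝ)) * ((m * 2 : ℕ) : ℝ) = 1 := by
      push_cast
      field_simp
    rw [this, Real.rpow_one]

end Run7.h921.LP
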