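import Pool.Agent.Run7.h356.LP.Stm

/-!
Piece RS (helper921): the real side for fixed `x`.
-/

set_option autoImplicit false

noncomputable section

open MeasureTheory Filter Topology Set
open scoped BigOperators Matrix ENNReal Pointwise

namespace Run7.h921.LP

open H356LP H712MA

namespace RSaux

variable {κ : Type} [Fintype κ] {n : ℕ}

omit [Fintype κ] in
lemma spans_inj (l : κ → Fin n → ℝ) (h : Spans l) (v : Fin n → ℝ)
    (hv : ∀ k, l k ⬝ᵥ v = 0) : v = 0 := by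
  obtain ⟨f, hf⟩ := h
  apply Matrix.eq_zero_of_mulVec_eq_zero hf
  funext i
  simp only [Matrix.mulVec, Matrix.of_apply, Pi.zero_apply]
  exact hv (f i)

/-- the linear functional `u ↦ v ⬝ᵥ u` -/
def lf (v : Fin n → ℝ) : (Fin n → ℝ) →L[ℝ] ℝ :=
  LinearMap.toContinuousLinearMap (dotProductBilin ℝ ℝ v)

/-- the map `Y` -/
def YY (F : ℂ → ℝ) (l : κ → Fin n → ℝ) (x u : Fin n → ℝ) : Fin n → ℝ :=
  ∑ k, F ⟨l k ⬝ᵥ x, l k ⬝ᵥ u⟩ • l k

/-- the derivative of `Y` -/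
def YD (rho : ℂ → ℝ) (l : κ → Fin n → ℝ) (x u : Fin n → ℝ) : (Fin n → ℝ) →L[ℝ] (Fin n → ℝ) :=
  LinearMap.toContinuousLinearMap
    (Matrix.toLin' (∑ k, rho (pk (l k) (x, u)) • Matrix.vecMulVec (l k) (l k)))

lemma YY_deriv {p q : ℝ} (D : Dat p q) (l : κ → Fin n → ℝ) (x u : Fin n → ℝ)
    (hx : ∀ k, l k ⬝ᵥ x ≠ 0) : HasFDerivAt (YY D.F l x) (YD D.rho l x u) u := by
  have hterm : ∀ k : κ, HasFDerivAt (fun v : Fin n → ℝ => D.F ⟨l k ⬝ᵥ x, l k ⬝ᵥ v⟩ • l k)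
      (D.rho (pk (l k) (x, u)) • (lf (l k)).smulRight (l k)) u := by
    intro k
    have hd := D.Fder (l k ⬝ᵥ x) (l k ⬝ᵥ u) (hx k)
    have hlin : HasFDerivAt (fun v : Fin n → ℝ => l k ⬝ᵥ v) (lf (l k)) u := (lf (l k)).hasFDerivAt
    have hc := hd.comp_hasFDerivAt u hlin
    have hc2 := hc.smul_const (l k)
    have hfin : D.rho (pk (l k) (x, u)) • (lf (l k)).smulRight (l k) =
        (D.rho ⟨l k ⬝ᵥ x, l k ⬝ᵥ u⟩ • lf (l k)).smulRight (l k) := by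
      ext v i
      simp only [ContinuousLinearMap.smulRight_apply, smul_apply, Pi.smul_apply, smul_eq_mul, pk]
      ring
    rw [hfin]
    exact hc2
  have h := HasFDerivAt.fun_sum (u := (Finset.univ : Finset κ)) (fun k _ => hterm k)
  have e : YD D.rho l x u = ∑ k, D.rho (pk (l k) (x, u)) • (lf (l k)).smulRight (l k) := by
    ext v i
    simp only [YD, LinearMap.coe_toContinuousLinearMap', Matrix.toLin'_apply,
      Matrix.sum_mulVec, Matrix.smul_mulVec, Finset.sum_apply, Pi.smul_apply, smul_eq_mul,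
      sum_apply, smul_apply,
      ContinuousLinearMap.smulRight_apply]
    refine Finset.sum_congr rfl fun k _ => ?_
    congr 1
    rw [Matrix.vecMulVec_mulVec]
    simp [lf, mul_comm]
  rw [e]
  exact h

lemma YY_inj {p q : ℝ} (D : Dat p q) (l : κ → Fin n → ℝ) (hl : Spans l) (x : Fin n → ℝ)
    (hx : ∀ k, l k ⬝ᵥ x ≠ 0) : Set.InjOn (YY D.F l x) univ := by
  have hmono : ∀ k, StrictMono fun y : ℝ => D.F ⟨l k ⬝ᵥ x, y⟩ := by
    intro k
    refine strictMono_of_deriv_pos fun y => ?_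
    rw [(D.Fder (l k ⬝ᵥ x) y (hx k)).deriv]
    exact D.rpos _ _ (hx k)
  intro u _ u' _ h
  have key : ∀ k, 0 ≤ (D.F ⟨l k ⬝ᵥ x, l k ⬝ᵥ u⟩ - D.F ⟨l k ⬝ᵥ x, l k ⬝ᵥ u'⟩) *
      (l k ⬝ᵥ u - l k ⬝ᵥ u') ∧
      ((D.F ⟨l k ⬝ᵥ x, l k ⬝ᵥ u⟩ - D.F ⟨l k ⬝ᵥ x, l k ⬝ᵥ u'⟩) *
      (l k ⬝ᵥ u - l k ⬝ᵥ u') = 0 → l k ⬝ᵥ u = l k ⬝ᵥ u') := by
    intro k
    rcases lt_trichotomy (l k ⬝ᵥ u) (l k ⬝ᵥ u') with h1 | h1 | h1
    · have h2 := hmono k h1
      simp only at h2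
      have : 0 < (D.F ⟨l k ⬝ᵥ x, l k ⬝ᵥ u⟩ - D.F ⟨l k ⬝ᵥ x, l k ⬝ᵥ u'⟩) *
          (l k ⬝ᵥ u - l k ⬝ᵥ u') := mul_pos_of_neg_of_neg (by linarith) (by linarith)
      exact ⟨this.le, fun h => by linarith⟩
    · exact ⟨by rw [h1]; simp, fun _ => h1⟩
    · have h2 := hmono k h1
      simp only at h2
      have : 0 < (D.F ⟨l k ⬝ᵥ x, l k ⬝ᵥ u⟩ - D.F ⟨l k ⬝ᵥ x, l k ⬝ᵥ u'⟩) *
          (l k ⬝ᵥ u - l k ⬝ᵥ u') := mul_pos (by linarith) (by linarith)
      exact ⟨this.le, fun h => by linarith⟩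
  have hsum : ∑ k, (D.F ⟨l k ⬝ᵥ x, l k ⬝ᵥ u⟩ - D.F ⟨l k ⬝ᵥ x, l k ⬝ᵥ u'⟩) *
      (l k ⬝ᵥ u - l k ⬝ᵥ u') = 0 := by
    have e1 : (YY D.F l x u - YY D.F l x u') ⬝ᵥ (u - u') = 0 := by
      rw [h]; simp
    have e2 : (YY D.F l x u - YY D.F l x u') ⬝ᵥ (u - u') =
        ∑ k, (D.F ⟨l k ⬝ᵥ x, l k ⬝ᵥ u⟩ - D.F ⟨l k ⬝ᵥ x, l k ⬝ᵥ u'⟩) *
      (l k ⬝ᵥ u - l k ⬝ᵥ u') := by
      unfold YY
      rw [← Finset.sum_sub_distrib, sum_dotProduct]
      refine Finset.sum_congr rfl fun k _ => ?_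
      rw [← sub_smul, smul_dotProduct, dotProduct_sub, smul_eq_mul]
    rw [e2] at e1
    exact e1
  have hz := (Finset.sum_eq_zero_iff_of_nonneg (fun k _ => (key k).1)).mp hsum
  have : u - u' = 0 := by
    apply spans_inj l hl
    intro k
    rw [dotProduct_sub, (key k).2 (hz k (Finset.mem_univ k)), sub_self]
  exact sub_eq_zero.mp this

lemma YD_det (ha3 : S_A3) (rho : ℂ → ℝ) (l : κ → Fin n → ℝ) (x u : Fin n → ℝ) :
    (n.factorial : ℝ) * (YD rho l x u).det = DS l (fun k => rho (pk (l k) (x, u))) := by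
  rw [← ha3]
  congr 1
  unfold YD
  rw [LinearMap.det_toContinuousLinearMap, LinearMap.det_toLin']

lemma DS_nonneg (l : κ → Fin n → ℝ) (a : κ → ℝ) (ha : ∀ k, 0 ≤ a k) : 0 ≤ DS l a := by
  unfold DS
  exact Finset.sum_nonneg fun f _ => mul_nonneg (Finset.prod_nonneg fun i _ => ha _) (sq_nonneg _)

end RSaux

open RSaux

/-- RS: the real side for fixed `x` -/
theorem RS (ha3 : S_A3) : S_RS := by
  intro p q D hpq κ _ n l hl Φ hΦ x hx
  have hcov := lintegral_image_eq_lintegral_abs_det_fderiv_mul (volume : Measure (Fin n → ℝ))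
    (s := univ) (f := YY D.F l x) (f' := fun u => YD D.rho l x u) MeasurableSet.univ
    (fun u _ => (YY_deriv D l x u hx).hasFDerivWithinAt) (YY_inj D l hl x hx)
    (fun y => ENNReal.ofReal (Real.exp (-Φ y)))
  rw [Measure.restrict_univ] at hcov
  have hle : ∫⁻ u : Fin n → ℝ, ENNReal.ofReal |(YD D.rho l x u).det| *
      ENNReal.ofReal (Real.exp (-Φ (YY D.F l x u))) ≤ ∫⁻ y, ENNReal.ofReal (Real.exp (-Φ y)) := by
    rw [← hcov]
    exact setLIntegral_le_lintegral _ _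
  have hpt : ∀ u : Fin n → ℝ, ENNReal.ofReal (DS l (fun k => D.rho (pk (l k) (x, u)))) *
        ENNReal.ofReal (Real.exp (- D.VS l (x, u))) ≤
      (n.factorial : ℝ≥0∞) * (ENNReal.ofReal (Real.exp (-((∑ k, |l k ⬝ᵥ x| ^ p) / p))) *
        (ENNReal.ofReal |(YD D.rho l x u).det| *
          ENNReal.ofReal (Real.exp (-Φ (YY D.F l x u))))) := by
    intro u
    have h1 := YD_det ha3 D.rho l x u
    have h5 := DS_nonneg l (fun k => D.rho (pk (l k) (x, u))) (fun k => D.rnn _)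
    have hn : (0 : ℝ) < n.factorial := by positivity
    have h6 : 0 ≤ (YD D.rho l x u).det := by
      by_contra hneg
      push Not at hneg
      have := mul_neg_of_pos_of_neg hn hneg
      linarith
    have hVS : D.VS l (x, u) = (∑ k, |l k ⬝ᵥ x| ^ p) / p +
        (∑ k, |D.F ⟨l k ⬝ᵥ x, l k ⬝ᵥ u⟩| ^ q) / q := by
      unfold Dat.VS
      rw [Finset.sum_div, Finset.sum_div, ← Finset.sum_add_distrib]
      refine Finset.sum_congr rfl fun k _ => ?_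
      exact D.VF _ _ (hx k)
    have hexp : Real.exp (- D.VS l (x, u)) ≤
        Real.exp (-((∑ k, |l k ⬝ᵥ x| ^ p) / p)) * Real.exp (-Φ (YY D.F l x u)) := by
      rw [← Real.exp_add, Real.exp_le_exp, hVS]
      have := hΦ (fun k => D.F ⟨l k ⬝ᵥ x, l k ⬝ᵥ u⟩)
      unfold YY
      linarith
    rw [abs_of_nonneg h6, ← h1, ENNReal.ofReal_mul hn.le, ENNReal.ofReal_natCast]
    calc (n.factorial : ℝ≥0∞) * ENNReal.ofReal (YD D.rho l x u).det *
          ENNReal.ofReal (Real.exp (- D.VS l (x, u)))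
        ≤ (n.factorial : ℝ≥0∞) * ENNReal.ofReal (YD D.rho l x u).det *
          ENNReal.ofReal (Real.exp (-((∑ k, |l k ⬝ᵥ x| ^ p) / p)) *
            Real.exp (-Φ (YY D.F l x u))) := by
          gcongr
      _ = _ := by
          rw [ENNReal.ofReal_mul (Real.exp_pos _).le]
          ring
  calc _ ≤ ∫⁻ u : Fin n → ℝ, (n.factorial : ℝ≥0∞) *
          (ENNReal.ofReal (Real.exp (-((∑ k, |l k ⬝ᵥ x| ^ p) / p))) *
            (ENNReal.ofReal |(YD D.rho l x u).det| *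
              ENNReal.ofReal (Real.exp (-Φ (YY D.F l x u))))) := lintegral_mono hpt
    _ = (n.factorial : ℝ≥0∞) * (ENNReal.ofReal (Real.exp (-((∑ k, |l k ⬝ᵥ x| ^ p) / p))) *
          ∫⁻ u : Fin n → ℝ, (ENNReal.ofReal |(YD D.rho l x u).det| *
              ENNReal.ofReal (Real.exp (-Φ (YY D.F l x u))))) := by
        rw [lintegral_const_mul' _ _ (ENNReal.natCast_ne_top _),
          lintegral_const_mul' _ _ ENNReal.ofReal_ne_top]
    _ ≤ _ := by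
        gcongr

end Run7.h921.LP
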