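import Pool.Agent.Run7.h356.LP.Stm

/-!
Piece VOL (helper921): Gaussian-type integrals of norms.
-/

set_option autoImplicit false

noncomputable section

open MeasureTheory Filter Topology Set
open scoped BigOperators Matrix ENNReal Pointwise

namespace Run7.h921.LP

open H356LP

/-- Gaussian-type integral of a norm -/
theorem VOL : S_VOL := by
  intro n g h1 h2 h3 h4 h5 p hp
  have hg0 : ∀ x, 0 ≤ g x := by
    intro x
    have h := h3 x (-x)
    rw [add_neg_cancel, h1, h2] at h
    linarith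
  rcases Nat.eq_zero_or_pos n with hn | hn
  · subst hn
    have hx : ∀ x : Fin 0 → ℝ, g x = 0 := fun x => by
      rw [Subsingleton.elim x 0, h1]
    have hs : {x : Fin 0 → ℝ | g x ≤ 1} = univ := by
      ext x; simp [hx x]
    rw [hs]
    simp only [hx, Real.zero_rpow hp.ne', zero_div, neg_zero, Real.exp_zero, ENNReal.ofReal_one,
      lintegral_one, Nat.cast_zero, Real.rpow_zero, zero_add, Real.Gamma_one, mul_one, one_mul]
  haveI : Nonempty (Fin n) := ⟨⟨0, hn⟩⟩
  -- the scaled norm
  set r : ℝ := p ^ (1 / p) with hr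
  have hr0 : 0 < r := Real.rpow_pos_of_pos hp _
  have hrp : r ^ p = p := by
    rw [hr, ← Real.rpow_mul hp.le, one_div, inv_mul_cancel₀ hp.ne', Real.rpow_one]
  set g' : (Fin n → ℝ) → ℝ := fun x => g x / r with hg'
  have k1 : g' 0 = 0 := by simp [hg', h1]
  have k2 : ∀ x, g' (-x) = g' x := fun x => by simp [hg', h2]
  have k3 : ∀ x y, g' (x + y) ≤ g' x + g' y := fun x y => by
    simp only [hg']
    rw [← add_div]
    exact div_le_div_of_nonneg_right (h3 x y) hr0.le
  have k4 : ∀ {x}, g' x = 0 → x = 0 := fun {x} h => by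
    simp only [hg', div_eq_zero_iff] at h
    exact h4 x (h.resolve_right hr0.ne')
  have k5 : ∀ (s : ℝ) x, g' (s • x) ≤ |s| * g' x := fun s x => by
    simp only [hg']
    rw [← mul_div_assoc]
    exact div_le_div_of_nonneg_right (h5 s x) hr0.le
  have hpow : ∀ x, (g' x) ^ p = g x ^ p / p := fun x => by
    simp only [hg']
    rw [Real.div_rpow (hg0 x) hr0.le, hrp]
  have hmain := measure_lt_one_eq_integral_div_gamma (volume : Measure (Fin n → ℝ)) k1 k2 k3 k4 k5 hp
  rw [Module.finrank_fintype_fun_eq_card, Fintype.card_fin] at hmain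
  have hG : 0 < Real.Gamma ((n : ℝ) / p + 1) := Real.Gamma_pos_of_pos (by positivity)
  -- the measure of the scaled ball
  have hsc : ∀ (s : ℝ), 0 < s → ∀ x, g (s • x) = s * g x := by
    intro s hs x
    refine le_antisymm (by simpa [abs_of_pos hs] using h5 s x) ?_
    have h := h5 s⁻¹ (s • x)
    rw [smul_smul, inv_mul_cancel₀ hs.ne', one_smul, abs_of_pos (inv_pos.2 hs)] at h
    calc s * g x ≤ s * (s⁻¹ * g (s • x)) := mul_le_mul_of_nonneg_left h hs.le
      _ = g (s • x) := by rw [← mul_assoc, mul_inv_cancel₀ hs.ne', one_mul]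
  have hset : {x : Fin n → ℝ | g' x < 1} = r • {x : Fin n → ℝ | g x < 1} := by
    ext x
    rw [Set.mem_smul_set_iff_inv_smul_mem₀ hr0.ne']
    simp only [mem_setOf_eq, hg']
    rw [hsc _ (inv_pos.2 hr0), div_lt_one hr0, inv_mul_lt_iff₀ hr0, mul_one]
  have hvol : volume {x : Fin n → ℝ | g' x < 1} =
      ENNReal.ofReal (p ^ ((n : ℝ) / p)) * volume {x : Fin n → ℝ | g x ≤ 1} := by
    rw [hset, Measure.addHaar_smul, Module.finrank_fintype_fun_eq_card, Fintype.card_fin,
      abs_of_nonneg (by positivity), hr, ← Real.rpow_natCast, ← Real.rpow_mul hp.le,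
      measure_le_eq_lt (volume : Measure (Fin n → ℝ)) h1 h2 h3 (fun {x} h => h4 x h) h5 1]
    congr 3
    ring
  -- integrability
  have hint : Integrable (fun x : Fin n → ℝ => Real.exp (-(g' x) ^ p)) := by
    by_contra hni
    rw [integral_undef hni, zero_div, ENNReal.ofReal_zero] at hmain
    have hcov : (univ : Set (Fin n → ℝ)) ⊆ ⋃ k : ℕ, ((k : ℝ) + 1) • {x : Fin n → ℝ | g' x < 1} := by
      intro x _
      obtain ⟨k, hk⟩ := exists_nat_gt (g' x)
      refine mem_iUnion.2 ⟨k, ?_⟩
      have hk0 : (0 : ℝ) < (k : ℝ) + 1 := by positivity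
      rw [Set.mem_smul_set_iff_inv_smul_mem₀ hk0.ne']
      simp only [mem_setOf_eq]
      have h := k5 ((k : ℝ) + 1)⁻¹ x
      rw [abs_of_pos (inv_pos.2 hk0)] at h
      refine h.trans_lt ?_
      rw [inv_mul_lt_iff₀ hk0, mul_one]
      linarith
    have h0 : volume (univ : Set (Fin n → ℝ)) ≤ 0 := by
      refine (measure_mono hcov).trans ?_
      rw [nonpos_iff_eq_zero, measure_iUnion_null_iff]
      intro k
      rw [Measure.addHaar_smul, hmain, mul_zero]
    rw [nonpos_iff_eq_zero, Measure.measure_univ_eq_zero] at h0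
    exact (NeZero.ne (volume : Measure (Fin n → ℝ))) h0
  have hL : ∫⁻ x : Fin n → ℝ, ENNReal.ofReal (Real.exp (-(g x ^ p / p))) =
      ENNReal.ofReal (∫ x : Fin n → ℝ, Real.exp (-(g' x) ^ p)) := by
    rw [ofReal_integral_eq_lintegral_ofReal hint (Eventually.of_forall fun x => (Real.exp_pos _).le)]
    refine lintegral_congr fun x => ?_
    rw [hpow]
  rw [hL]
  have hI : (∫ x : Fin n → ℝ, Real.exp (-(g' x) ^ p)) =
      (∫ x : Fin n → ℝ, Real.exp (-(g' x) ^ p)) / Real.Gamma ((n : ℝ) / p + 1) *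
        Real.Gamma ((n : ℝ) / p + 1) := by
    rw [div_mul_cancel₀ _ hG.ne']
  rw [hI, ENNReal.ofReal_mul (div_nonneg (integral_nonneg fun x => (Real.exp_pos _).le) hG.le),
    ← hmain, hvol, ENNReal.ofReal_mul (by positivity)]
  ring

end Run7.h921.LP
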